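import Pool.Agent.Helper20.RE.Stm

/-!
# Project RE, package P: from entropies to cardinalities
-/

set_option autoImplicit false

open Finset
open scoped Classical

namespace Pool.Agent.Helper59.RE

open Pool.Agent.W904.AK Pool.Agent.Helper20.RE

theorem p_P : S_P := by
  intro k r κ hκ hyp A
  rcases A.eq_empty_or_nonempty with hA | hA
  · subst hA
    have h0 : (pr (-1) (∅ : Finset (ℤ × ℤ))).card = 0 := by simp [pr]
    rw [h0, Nat.cast_zero]
    exact Real.rpow_nonneg (Nat.cast_nonneg _) _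
  obtain ⟨B, hB⟩ : ∃ B, B = pr (-1) A := ⟨_, rfl⟩
  rw [← hB]
  have hBne : B.Nonempty := by rw [hB]; exact hA.image _
  have hrep : ∀ b : B, ∃ a ∈ A, (a.1 : ℚ) + (-1) * (a.2 : ℚ) = b.1 := by
    intro b
    have hb : (b.1 : ℚ) ∈ pr (-1) A := hB ▸ b.2
    exact Finset.mem_image.1 hb
  choose rep hrepA hrepB using hrep
  have : Nonempty B := hBne.to_subtype
  have hlaw := unif_law B
  have hM1 : 1 ≤ top r A := by
    unfold top
    refine le_max_of_le_left (le_max_of_le_left ?_)
    exact Finset.card_pos.2 (hA.image _)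
  have hMpos : (0 : ℝ) < (top r A : ℝ) := by exact_mod_cast hM1
  have hval : ∀ (f : B → ℚ) (S : Finset ℚ), S.card ≤ top r A → (∀ b, f b ∈ S) →
      H (unif B) f ≤ Real.log (top r A : ℝ) := by
    intro f S hS hf
    refine (H_le_log_card hlaw f S fun x _ => hf x).trans (Real.log_le_log ?_ ?_)
    · have hne : S.Nonempty := ⟨_, hf (Classical.arbitrary B)⟩
      exact_mod_cast Finset.card_pos.2 hne
    · exact_mod_cast hS
  have hD : ∀ b : B, ((rep b).1 : ℚ) - ((rep b).2 : ℚ) = b.1 := by
    intro b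
    rw [← hrepB b]
    ring
  have hDinj : Function.Injective fun b : B => ((rep b).1 : ℚ) - ((rep b).2 : ℚ) := by
    intro b b' h
    beta_reduce at h
    rw [hD, hD] at h
    exact Subtype.ext h
  have hle := hyp B (unif B) (fun b => ((rep b).1 : ℚ)) (fun b => ((rep b).2 : ℚ))
    (Real.log (top r A : ℝ)) hlaw (fun x y _ _ h => by rw [hDinj h])
    (hval _ (pr 0 A) (le_max_of_le_left (le_max_left _ _)) fun b =>
      Finset.mem_image.2 ⟨rep b, hrepA b, by ring⟩)
    (hval _ (prInf A) (le_max_of_le_left (le_max_right _ _)) fun b =>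
      Finset.mem_image.2 ⟨rep b, hrepA b, rfl⟩)
    (fun i => hval _ (pr (r i) A)
      (le_max_of_le_right (Finset.le_sup (f := fun i => (pr (r i) A).card) (Finset.mem_univ i)))
      fun b => Finset.mem_image.2 ⟨rep b, hrepA b, rfl⟩)
  have hH : H (unif B) (fun b : B => ((rep b).1 : ℚ) - ((rep b).2 : ℚ)) = Real.log B.card := by
    rw [H_unif B hDinj, Fintype.card_coe]
  rw [hH, ← Real.log_rpow hMpos] at hle
  have hBpos : (0 : ℝ) < B.card := by exact_mod_cast Finset.card_pos.2 hBne
  exact (Real.log_le_log_iff hBpos (Real.rpow_pos_of_pos hMpos κ)).1 hle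

end Pool.Agent.Helper59.RE
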