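import Pool.Agent.Helper20.RE.Stm3

/-! # RE, package PL: coverings of sets with the pattern -/

set_option autoImplicit false

open Finset
open scoped Classical

namespace Pool.Agent.Helper59.RE

open Pool.Agent.Helper20.RE

/-- value of a vector in base `N` -/
def ph (n : ℕ) (N : ℤ) (v : Fin n → ℤ) : ℤ := ∑ j, v j * N ^ (j : ℕ)

theorem ph_succ (n : ℕ) (N : ℤ) (v : Fin (n + 1) → ℤ) :
    ph (n + 1) N v = v 0 + N * ph n N (fun j => v j.succ) := by
  unfold ph
  rw [Fin.sum_univ_succ, Finset.mul_sum]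
  simp only [Fin.val_zero, pow_zero, mul_one, Fin.val_succ]
  congr 1
  refine Finset.sum_congr rfl fun j _ => ?_
  ring

theorem ph_add (n : ℕ) (N : ℤ) (v w : Fin n → ℤ) (c : ℤ) :
    ph n N (fun j => v j + c * w j) = ph n N v + c * ph n N w := by
  unfold ph
  rw [Finset.mul_sum, ← Finset.sum_add_distrib]
  refine Finset.sum_congr rfl fun j _ => ?_
  ring

theorem ph_inj : ∀ (n m : ℕ) (d d' : Fin n → ℕ), (∀ j, d j ≤ m) → (∀ j, d' j ≤ m) →
    ph n ((m : ℤ) + 1) (fun j => (d j : ℤ)) = ph n ((m : ℤ) + 1) (fun j => (d' j : ℤ)) → d = d'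
  | 0, _, _, _, _, _, _ => Subsingleton.elim _ _
  | n + 1, m, d, d', h1, h2, h => by
    rw [ph_succ, ph_succ] at h
    have e1 : (d 0 : ℤ) = d' 0 := by
      have h3 := congrArg (fun t : ℤ => t % ((m : ℤ) + 1)) h
      simp only [Int.add_mul_emod_self_left] at h3
      have a1 := h1 0
      have a2 := h2 0
      rw [Int.emod_eq_of_lt (by positivity) (by omega),
        Int.emod_eq_of_lt (by positivity) (by omega)] at h3
      exact h3
    have e2 := ph_inj n m (fun j => d j.succ) (fun j => d' j.succ) (fun j => h1 _)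
      (fun j => h2 _) (by
        rw [e1] at h
        have h4 := add_left_cancel h
        exact mul_left_cancel₀ (by positivity) h4)
    funext j
    refine Fin.cases ?_ (fun j => ?_) j
    · exact_mod_cast e1
    · exact congrFun e2 j

theorem comden {k : ℕ} (q : Fin k → ℚ) :
    ∃ Q : ℕ, 0 < Q ∧ ∀ i, ∃ z : ℤ, q i * (Q : ℚ) = (z : ℚ) := by
  refine ⟨∏ i, (q i).den, Finset.prod_pos fun i _ => (q i).den_pos, fun i => ?_⟩
  obtain ⟨t, ht⟩ := Finset.dvd_prod_of_mem (fun i => (q i).den) (Finset.mem_univ i)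
  refine ⟨(q i).num * t, ?_⟩
  rw [ht]
  push_cast
  rw [← mul_assoc, Rat.mul_den_eq_num]

theorem PL : S_PL := by
  intro k q hq κ hκ hE n
  obtain ⟨Q, hQ, hz⟩ := comden q
  choose z hz using hz
  have hQ0 : (0 : ℝ) < Q := by exact_mod_cast hQ
  refine ⟨((3 : ℝ) ^ n)⁻¹ * (Q : ℝ) ^ (-((n : ℝ) / κ)), by positivity, ?_⟩
  intro B hB δ hδ hδ1 P hP
  set m : ℕ := ⌊1 / ((Q : ℝ) * δ)⌋₊ with hm
  have hQδ : 0 < (Q : ℝ) * δ := by positivity
  have hm0 : (m : ℝ) * ((Q : ℝ) * δ) ≤ 1 := by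
    have := Nat.floor_le (a := 1 / ((Q : ℝ) * δ)) (by positivity)
    rw [← hm, le_div_iff₀ hQδ] at this
    exact this
  have hm1 : 1 / ((Q : ℝ) * δ) ≤ (m : ℝ) + 1 := (Nat.lt_floor_add_one _).le
  -- floors
  set W : Finset (Fin n → ℤ) := P.biUnion fun p =>
    (univ : Finset (Fin n → Fin 3)).image fun t j => ⌊p j / δ⌋ + ((t j : ℕ) : ℤ) - 1 with hWd
  have hWc : (W.card : ℝ) ≤ 3 ^ n * P.card := by
    have h1 : W.card ≤ ∑ p ∈ P, 3 ^ n := by
      refine Finset.card_biUnion_le.trans (Finset.sum_le_sum fun p _ => ?_)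
      refine Finset.card_image_le.trans ?_
      simp
    rw [Finset.sum_const, smul_eq_mul, mul_comm] at h1
    exact_mod_cast h1
  have hW : ∀ b ∈ B, (fun j => ⌊b j / δ⌋) ∈ W := by
    intro b hb
    obtain ⟨p, hp⟩ := Set.mem_iUnion.1 (hP hb)
    obtain ⟨hp1, hp2⟩ := Set.mem_iUnion.1 hp
    rw [hWd, Finset.mem_biUnion]
    refine ⟨p, hp1, ?_⟩
    have hj : ∀ j, |b j - p j| < δ := by
      intro j
      have h1 : ‖(b - p) j‖ ≤ ‖b - p‖ := PiLp.norm_apply_le (b - p) j
      rw [Metric.mem_ball, dist_eq_norm] at hp2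
      have h2 : (b - p) j = b j - p j := rfl
      rw [h2, Real.norm_eq_abs] at h1
      exact lt_of_le_of_lt h1 hp2
    have hj2 : ∀ j, ⌊p j / δ⌋ - 1 ≤ ⌊b j / δ⌋ ∧ ⌊b j / δ⌋ ≤ ⌊p j / δ⌋ + 1 := by
      intro j
      have h1 := abs_lt.1 (hj j)
      constructor
      · rw [Int.le_floor]
        push_cast
        have h2 := Int.floor_le (p j / δ)
        have h3 : p j / δ - 1 ≤ b j / δ := by
          rw [← sub_nonneg]
          have : b j / δ - (p j / δ - 1) = (b j - p j + δ) / δ := by field_simp; ring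
          rw [this]
          apply div_nonneg _ hδ.le
          linarith [h1.1]
        linarith
      · have h2 : (⌊b j / δ⌋ : ℝ) < ⌊p j / δ⌋ + 2 := by
          have h3 := Int.floor_le (b j / δ)
          have h4 := Int.lt_floor_add_one (p j / δ)
          have h5 : b j / δ < p j / δ + 1 := by
            rw [← sub_pos]
            have : p j / δ + 1 - b j / δ = (p j - b j + δ) / δ := by field_simp; ring
            rw [this]
            apply div_pos _ hδ
            linarith [h1.2]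
          linarith
        have h3 : ⌊b j / δ⌋ < ⌊p j / δ⌋ + 2 := by exact_mod_cast h2
        omega
    rw [Finset.mem_image]
    refine ⟨fun j => ⟨(⌊b j / δ⌋ - ⌊p j / δ⌋ + 1).toNat, by have := hj2 j; omega⟩,
      Finset.mem_univ _, ?_⟩
    funext j
    have := hj2 j
    simp only
    omega
  -- the points
  have hpt : ∀ d : Fin n → Fin (m + 1), ∃ x : EuclideanSpace ℝ (Fin n),
      (fun j => ⌊x j / δ⌋) ∈ W ∧
      (fun j => ⌊x j / δ⌋ + (Q : ℤ) * ((d j : ℕ) : ℤ)) ∈ W ∧
      ∀ i, (fun j => ⌊x j / δ⌋ + z i * ((d j : ℕ) : ℤ)) ∈ W := by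
    intro d
    obtain ⟨x, hx, hx1, hx2⟩ := hB (WithLp.toLp 2 fun j => δ * Q * ((d j : ℕ) : ℝ)) (by
      intro j
      have h1 : ((d j : ℕ) : ℝ) ≤ m := by exact_mod_cast Nat.lt_succ_iff.1 (d j).2
      have h2 : (WithLp.toLp 2 fun j => δ * (Q : ℝ) * ((d j : ℕ) : ℝ) :
        EuclideanSpace ℝ (Fin n)) j = δ * Q * ((d j : ℕ) : ℝ) := rfl
      rw [h2]
      constructor
      · positivity
      · calc δ * Q * ((d j : ℕ) : ℝ) ≤ δ * Q * m := by gcongr
          _ = m * (Q * δ) := by ring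
          _ ≤ 1 := hm0)
    refine ⟨x, hW x hx, ?_, fun i => ?_⟩
    · have h1 := hW _ hx1
      convert h1 using 1
      funext j
      have h2 : (x + WithLp.toLp 2 fun j => δ * (Q : ℝ) * ((d j : ℕ) : ℝ) :
        EuclideanSpace ℝ (Fin n)) j = x j + δ * Q * ((d j : ℕ) : ℝ) := rfl
      rw [h2]
      have h3 : (x j + δ * Q * ((d j : ℕ) : ℝ)) / δ =
          x j / δ + (((Q : ℤ) * ((d j : ℕ) : ℤ) : ℤ) : ℝ) := by
        push_cast
        field_simp
      rw [h3, Int.floor_add_intCast]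
    · have h1 := hW _ (hx2 i)
      convert h1 using 1
      funext j
      have h2 : (x + ((q i : ℚ) : ℝ) • WithLp.toLp 2 fun j => δ * (Q : ℝ) * ((d j : ℕ) : ℝ) :
        EuclideanSpace ℝ (Fin n)) j = x j + ((q i : ℚ) : ℝ) * (δ * Q * ((d j : ℕ) : ℝ)) := rfl
      rw [h2]
      have h4 : ((q i : ℚ) : ℝ) * Q = (z i : ℝ) := by exact_mod_cast hz i
      have h3 : (x j + ((q i : ℚ) : ℝ) * (δ * Q * ((d j : ℕ) : ℝ))) / δ =
          x j / δ + ((z i * ((d j : ℕ) : ℤ) : ℤ) : ℝ) := by
        push_cast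
        rw [← h4]
        field_simp
      rw [h3, Int.floor_add_intCast]
  choose x hx0 hx1 hx2 using hpt
  set N : ℤ := (m : ℤ) + 1 with hN
  set X : (Fin n → Fin (m + 1)) → ℤ := fun d => ph n N (fun j => ⌊x d j / δ⌋) with hX
  set D : (Fin n → Fin (m + 1)) → ℤ := fun d => ph n N (fun j => ((d j : ℕ) : ℤ)) with hD
  set V : Finset ℤ := W.image (ph n N) with hV
  have hVc : V.card ≤ W.card := Finset.card_image_le
  have k0 : ∀ d, X d ∈ V := fun d => Finset.mem_image_of_mem _ (hx0 d)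
  have k1 : ∀ d, X d + Q * D d ∈ V := fun d => by
    have := Finset.mem_image_of_mem (ph n N) (hx1 d)
    rw [ph_add] at this
    exact this
  have k2 : ∀ d i, X d + z i * D d ∈ V := fun d i => by
    have := Finset.mem_image_of_mem (ph n N) (hx2 d i)
    rw [ph_add] at this
    exact this
  set A : Finset (ℤ × ℤ) := univ.image fun d => (X d + Q * D d, X d) with hA
  have hAm : ((pr (-1) A).card : ℝ) = ((m : ℝ) + 1) ^ n := by
    have h1 : pr (-1) A = univ.image fun d => (((Q : ℤ) * D d : ℤ) : ℚ) := by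
      unfold pr
      rw [hA, Finset.image_image]
      refine Finset.image_congr fun d _ => ?_
      simp only [Function.comp]
      push_cast
      ring
    rw [h1, Finset.card_image_of_injective]
    · rw [Finset.card_univ, Fintype.card_fun, Fintype.card_fin, Fintype.card_fin]
      push_cast
      rfl
    · intro d d' h
      have h' : (((Q : ℤ) * D d : ℤ) : ℚ) = (((Q : ℤ) * D d' : ℤ) : ℚ) := h
      have h2 : (Q : ℤ) * D d = Q * D d' := by exact_mod_cast h'
      have h3 : D d = D d' := mul_left_cancel₀ (by exact_mod_cast hQ.ne') h2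
      have h4 := ph_inj n m (fun j => (d j : ℕ)) (fun j => (d' j : ℕ))
        (fun j => Nat.lt_succ_iff.1 (d j).2) (fun j => Nat.lt_succ_iff.1 (d' j).2) h3
      funext j
      exact Fin.ext (congrFun h4 j)
  have htop : top (fun i => 1 / q i - 1) A ≤ W.card := by
    unfold top
    refine max_le (max_le ?_ ?_) (Finset.sup_le fun i _ => ?_)
    · refine le_trans (Finset.card_le_card (t := V.image fun v : ℤ => (v : ℚ)) ?_)
        (Finset.card_image_le.trans hVc)
      intro t ht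
      unfold pr at ht
      rw [hA, Finset.image_image, Finset.mem_image] at ht
      obtain ⟨d, _, rfl⟩ := ht
      refine Finset.mem_image.2 ⟨_, k1 d, ?_⟩
      simp
    · refine le_trans (Finset.card_le_card (t := V.image fun v : ℤ => (v : ℚ)) ?_)
        (Finset.card_image_le.trans hVc)
      intro t ht
      unfold prInf at ht
      rw [hA, Finset.image_image, Finset.mem_image] at ht
      obtain ⟨d, _, rfl⟩ := ht
      exact Finset.mem_image.2 ⟨_, k0 d, rfl⟩
    · refine le_trans (Finset.card_le_card (t := V.image fun v : ℤ => (q i)⁻¹ * (v : ℚ)) ?_)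
        (Finset.card_image_le.trans hVc)
      intro t ht
      unfold pr at ht
      rw [hA, Finset.image_image, Finset.mem_image] at ht
      obtain ⟨d, _, rfl⟩ := ht
      refine Finset.mem_image.2 ⟨_, k2 d i, ?_⟩
      simp only [Function.comp]
      push_cast
      rw [← hz i]
      have := hq i
      field_simp
      ring
  have h1 := hE A
  rw [hAm] at h1
  have h2 : ((top (fun i => 1 / q i - 1) A : ℕ) : ℝ) ≤ 3 ^ n * P.card :=
    le_trans (by exact_mod_cast htop) hWc
  have h3 : (1 / ((Q : ℝ) * δ)) ^ n ≤ ((3 : ℝ) ^ n * P.card) ^ κ := by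
    calc (1 / ((Q : ℝ) * δ)) ^ n ≤ ((m : ℝ) + 1) ^ n := by gcongr
      _ ≤ _ := h1
      _ ≤ _ := Real.rpow_le_rpow (by positivity) h2 hκ.le
  have h4 : ((1 / ((Q : ℝ) * δ)) ^ n) ^ (1 / κ) ≤ (3 : ℝ) ^ n * P.card := by
    calc ((1 / ((Q : ℝ) * δ)) ^ n) ^ (1 / κ) ≤ (((3 : ℝ) ^ n * P.card) ^ κ) ^ (1 / κ) :=
          Real.rpow_le_rpow (by positivity) h3 (by positivity)
      _ = (3 : ℝ) ^ n * P.card := by
        rw [← Real.rpow_mul (by positivity), mul_one_div_cancel hκ.ne', Real.rpow_one]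
  have h5 : ((1 / ((Q : ℝ) * δ)) ^ n) ^ (1 / κ) =
      (Q : ℝ) ^ (-((n : ℝ) / κ)) * δ ^ (-((n : ℝ) / κ)) := by
    rw [← Real.rpow_natCast, ← Real.rpow_mul (by positivity), one_div,
      Real.inv_rpow (by positivity), ← Real.rpow_neg (by positivity),
      Real.mul_rpow hQ0.le hδ.le]
    congr 2 <;> ring
  rw [h5] at h4
  rw [mul_assoc, inv_mul_le_iff₀ (by positivity)]
  exact h4

end Pool.Agent.Helper59.RE
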